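import Mathlib
import Pool.Agent.Helper913.EPatFinal

set_option autoImplicit false

namespace Pool.Agent.Results.MP_d6d0a6_lc.NoLearner

/-- The E-pattern language over the alphabet `Fin k` of a word `α` over the variables `ℕ` and the
terminals `Fin k`: all images of `α` under substitutions (variables may be erased). -/
def ELang (k : ℕ) (α : List (ℕ ⊕ Fin k)) : Set (List (Fin k)) :=
  {w | ∃ σ : ℕ → List (Fin k), w = α.flatMap (Sum.elim σ (fun a => [a]))}

/-- `α` is a quasi-terminal-free pattern: nonempty, and at least two letters do not occur. -/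
def QTF (k : ℕ) (α : List (ℕ ⊕ Fin k)) : Prop :=
  α ≠ [] ∧ ∃ a b : Fin k, a ≠ b ∧ Sum.inr a ∉ α ∧ Sum.inr b ∉ α

/-- The learner `M` identifies the language of `α` in the limit from every text `t` of it. -/
def Identifies (k : ℕ) (M : List (List (Fin k)) → List (ℕ ⊕ Fin k)) (α : List (ℕ ⊕ Fin k)) :
    Prop :=
  ∀ t : ℕ → List (Fin k), Set.range t = ELang k α →
    ∃ β : List (ℕ ⊕ Fin k), ELang k β = ELang k α ∧
      ∃ N : ℕ, ∀ n ≥ N, M ((List.range n).map t) = β

/-- For every alphabet size `k ≥ 5` no learner at all, computable or not, identifies all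
quasi-terminal-free E-pattern languages. -/
theorem result : ∀ k : ℕ, 5 ≤ k → ¬ ∃ M : List (List (Fin k)) → List (ℕ ⊕ Fin k),
    ∀ α : List (ℕ ⊕ Fin k), QTF k α → Identifies k M α := by
  intro k hk
  obtain ⟨n, rfl⟩ : ∃ n, k = n + 3 := ⟨k - 3, by omega⟩
  rintro ⟨M, hM⟩
  exact Pool.Agent.Helper913.EPat.not_learnable n (by omega) M
    (fun α hα hq t ht => hM α ⟨hα, hq⟩ t ht)

end Pool.Agent.Results.MP_d6d0a6_lc.NoLearner
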